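import Pool.Agent.Helper50.Tm.Goals

/-!
Existence of the affine Weil restriction along a finite free extension, of finite presentation
(MP_f619a5_ag, project TAME, packet TM-WEILE).
-/

open TensorProduct

namespace Pool.Agent.Helper87.Tm

open Pool.Agent.Helper50.Tm (IsWeil WEILE)

open Classical in
/-- The coordinates of an element of `S ⊗ C` with respect to a basis of `S`. -/
noncomputable def coord {R S ι : Type} [CommRing R] [CommRing S] [Algebra R S]
    (b : Module.Basis ι R S) (C : Type) [CommRing C] [Algebra R C] :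
    S ⊗[R] C ≃ₗ[R] (ι →₀ C) :=
  TensorProduct.equivFinsuppOfBasisLeft b

section

variable {R S ι : Type} [CommRing R] [CommRing S] [Algebra R S] (b : Module.Basis ι R S)
  {C D : Type} [CommRing C] [Algebra R C] [CommRing D] [Algebra R D]

theorem coord_tmul (s : S) (c : C) (i : ι) : coord b C (s ⊗ₜ c) i = b.repr s i • c := by
  classical
  exact TensorProduct.equivFinsuppOfBasisLeft_apply_tmul_apply b s c i

theorem coord_map (f : C →ₐ[R] D) (x : S ⊗[R] C) (i : ι) :
    coord b D (Algebra.TensorProduct.map (AlgHom.id S S) f x) i = f (coord b C x i) := by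
  induction x using TensorProduct.induction_on with
  | zero => simp
  | tmul s c =>
    rw [Algebra.TensorProduct.map_tmul, coord_tmul, coord_tmul, map_smul]
    rfl
  | add x y hx hy =>
    rw [map_add, map_add, map_add, Finsupp.add_apply, Finsupp.add_apply, map_add, hx, hy]

theorem coord_ext {x y : S ⊗[R] C} (h : ∀ i, coord b C x i = coord b C y i) : x = y :=
  (coord b C).injective (Finsupp.ext h)

variable [Fintype ι]

theorem coord_sum (c : ι → C) (i : ι) : coord b C (∑ j, b j ⊗ₜ c j) i = c i := by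
  classical
  rw [map_sum, Finsupp.finsetSum_apply]
  rw [Finset.sum_eq_single i]
  · rw [coord_tmul, Module.Basis.repr_self, Finsupp.single_eq_same, one_smul]
  · intro j _ hj
    rw [coord_tmul, Module.Basis.repr_self, Finsupp.single_eq_of_ne (by exact fun h => hj h.symm),
      zero_smul]
  · intro h
    exact absurd (Finset.mem_univ i) h

theorem sum_coord (x : S ⊗[R] C) : ∑ j, b j ⊗ₜ coord b C x j = x := by
  apply coord_ext b
  intro i
  rw [coord_sum]

end

/-- The Weil restriction of the polynomial ring. -/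
theorem exists_weil_poly (R S ι α : Type) [CommRing R] [CommRing S] [Algebra R S] [Fintype ι]
    (b : Module.Basis ι R S) :
    ∃ Q : MvPolynomial α S →ₐ[S] S ⊗[R] (MvPolynomial (α × ι) R),
      IsWeil R S (MvPolynomial α S) (MvPolynomial (α × ι) R) Q := by
  refine ⟨MvPolynomial.aeval (fun a => ∑ i, b i ⊗ₜ (MvPolynomial.X (a, i))), ?_⟩
  intro C _ _
  constructor
  · intro h1 h2 h12
    have h12' := fun p => congrArg (fun k : MvPolynomial α S →ₐ[S] S ⊗[R] C => k p) h12
    apply MvPolynomial.algHom_ext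
    rintro ⟨a, i⟩
    have e := congrArg (fun x => coord b C x i) (h12' (MvPolynomial.X a))
    simp only [AlgHom.comp_apply, MvPolynomial.aeval_X] at e
    rw [coord_map, coord_map, coord_sum] at e
    exact e
  · intro g
    refine ⟨MvPolynomial.aeval
      (fun q : α × ι => coord b C (g (MvPolynomial.X q.1)) q.2), ?_⟩
    apply MvPolynomial.algHom_ext
    intro a
    apply coord_ext b
    intro i
    simp only [AlgHom.comp_apply, MvPolynomial.aeval_X]
    rw [coord_map, coord_sum, MvPolynomial.aeval_X]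

/-- The Weil restriction of a quotient by a finitely generated ideal. -/
theorem exists_weil_quotient (R S ι A B P : Type) [CommRing R] [CommRing S] [Algebra R S]
    [Fintype ι] (b : Module.Basis ι R S) [CommRing A] [Algebra S A] [CommRing B] [Algebra S B]
    [CommRing P] [Algebra R P] [Algebra.FinitePresentation R P] (Q : A →ₐ[S] S ⊗[R] P)
    (hQ : IsWeil R S A P Q) (f : A →ₐ[S] B) (hf : Function.Surjective f)
    (hker : (RingHom.ker f.toRingHom).FG) :
    ∃ (W : Type) (_ : CommRing W) (_ : Algebra R W) (u : B →ₐ[S] S ⊗[R] W),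
      Algebra.FinitePresentation R W ∧ IsWeil R S B W u := by
  classical
  obtain ⟨s, hs⟩ := hker
  obtain ⟨J, hJFG, hJ⟩ : ∃ J : Ideal P, J.FG ∧ ∀ K : Ideal P,
      J ≤ K ↔ ∀ p ∈ s, ∀ i, coord b P (Q p) i ∈ K := by
    refine ⟨Ideal.span ((s ×ˢ (Finset.univ : Finset ι)).image
      (fun q => coord b P (Q q.1) q.2) : Finset P), ⟨_, rfl⟩, ?_⟩
    intro K
    rw [Ideal.span_le]
    constructor
    · intro h p hp i
      exact h (Finset.mem_coe.2 (Finset.mem_image.2 ⟨(p, i), Finset.mem_product.2
        ⟨hp, Finset.mem_univ i⟩, rfl⟩))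
    · intro h y hy
      obtain ⟨q, hq, rfl⟩ := Finset.mem_image.1 (Finset.mem_coe.1 hy)
      exact h q.1 (Finset.mem_product.1 hq).1 q.2
  have hJmem := (hJ J).1 le_rfl
  have hu0 : RingHom.ker f.toRingHom ≤ RingHom.ker
      ((Algebra.TensorProduct.map (AlgHom.id S S) (Ideal.Quotient.mkₐ R J)).comp Q).toRingHom := by
    rw [← hs, Ideal.span_le]
    intro p hp
    change Algebra.TensorProduct.map (AlgHom.id S S) (Ideal.Quotient.mkₐ R J) (Q p) = 0
    apply coord_ext b
    intro i
    rw [coord_map, map_zero, Finsupp.zero_apply]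
    exact Ideal.Quotient.eq_zero_iff_mem.2 (hJmem p hp i)
  obtain ⟨u, hu⟩ : ∃ u : B →ₐ[S] S ⊗[R] (P ⧸ J), ∀ p, u (f p) =
      Algebra.TensorProduct.map (AlgHom.id S S) (Ideal.Quotient.mkₐ R J) (Q p) :=
    ⟨AlgHom.liftOfSurjective f hf _ hu0, fun p => AlgHom.liftOfSurjective_apply f hf _ hu0 p⟩
  refine ⟨P ⧸ J, inferInstance, inferInstance, u, Algebra.FinitePresentation.quotient hJFG, ?_⟩
  intro C _ _
  have hcomp : ∀ (h : (P ⧸ J) →ₐ[R] C) (p : A),
      Algebra.TensorProduct.map (AlgHom.id S S) h (u (f p)) =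
        Algebra.TensorProduct.map (AlgHom.id S S) (h.comp (Ideal.Quotient.mkₐ R J)) (Q p) := by
    intro h p
    rw [hu]
    apply coord_ext b
    intro i
    rw [coord_map, coord_map, coord_map]
    rfl
  constructor
  · intro h1 h2 h12
    apply Ideal.Quotient.algHom_ext
    apply (hQ C).1
    apply AlgHom.ext
    intro p
    have e := congrArg (fun k : B →ₐ[S] S ⊗[R] C => k (f p)) h12
    exact (hcomp h1 p).symm.trans (e.trans (hcomp h2 p))
  · intro g
    obtain ⟨h0, hh0⟩ := (hQ C).2 (g.comp f)
    have hh0' : ∀ p, Algebra.TensorProduct.map (AlgHom.id S S) h0 (Q p) = g (f p) :=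
      fun p => congrArg (fun k : A →ₐ[S] S ⊗[R] C => k p) hh0
    have hJ0 : J ≤ RingHom.ker h0.toRingHom := by
      rw [hJ]
      intro p hp i
      have hfq : f p = 0 := by
        have : p ∈ RingHom.ker f.toRingHom := by
          rw [← hs]
          exact Ideal.subset_span (Finset.mem_coe.2 hp)
        exact this
      change h0 (coord b P (Q p) i) = 0
      rw [← coord_map, hh0', hfq, map_zero, map_zero, Finsupp.zero_apply]
    have hJ1 : ∀ a ∈ J, h0 a = 0 := fun a ha => hJ0 ha
    refine ⟨Ideal.Quotient.liftₐ J h0 hJ1, ?_⟩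
    apply AlgHom.ext
    intro x
    obtain ⟨p, rfl⟩ := hf x
    refine (hcomp _ p).trans ?_
    rw [Ideal.Quotient.liftₐ_comp]
    exact hh0' p

/-- Packet TM-WEILE. -/
theorem gWEILE : WEILE := by
  intro R S B _ _ _ _ _ _ _ hfp
  obtain ⟨n, f, hf, hker⟩ := hfp.out
  obtain ⟨Q, hQ⟩ := exists_weil_poly R S (Module.Free.ChooseBasisIndex R S) (Fin n)
    (Module.Free.chooseBasis R S)
  have : Algebra.FinitePresentation R
      (MvPolynomial (Fin n × Module.Free.ChooseBasisIndex R S) R) :=
    Algebra.FinitePresentation.mvPolynomial R R _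
  exact exists_weil_quotient R S _ _ B _ (Module.Free.chooseBasis R S) Q hQ f hf hker

end Pool.Agent.Helper87.Tm
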