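import Pool.Agent.Helper50.Tm.Goals2
import Pool.Agent.Helper8.Nm.LIFTK
import Pool.Agent.Helper82.Nm.Kpt
import Pool.Agent.Helper9.Tm.DIVL

/-!
Packet TW-CST of the project TAME (MP_f619a5_ag): if finitely many algebraic families of sections
exhaust the identity component modulo the kernel of the reduction, one of them contains all sections
through a nonempty open set.
-/

open CategoryTheory AlgebraicGeometry Limits TensorProduct MonoidalCategory
open scoped Obj

namespace Pool.Agent.Helper87.Tm

open Pool.Agent.Helper50.Tm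
open Pool.Agent.Helper40.Nm (specOver homGroup specialFibre)

/-! ### Constructible sets -/

section top

variable {X : Type*} [TopologicalSpace X]

/-- Constructible sets are decided on a nonempty open part of every nonempty set. -/
theorem decide {T : Set X} (hT : Topology.IsConstructible T) :
    ∀ Z : Set X, Z.Nonempty → ∃ V : Set X, IsOpen V ∧ (V ∩ Z).Nonempty ∧
      (V ∩ Z ⊆ T ∨ V ∩ Z ⊆ Tᶜ) := by
  induction hT using Topology.IsConstructible.empty_union_induction with
  | open_retrocompact U hU hU' =>
    intro Z hZ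
    by_cases h : (U ∩ Z).Nonempty
    · exact ⟨U, hU, h, Or.inl Set.inter_subset_left⟩
    · refine ⟨Set.univ, isOpen_univ, by rwa [Set.univ_inter], Or.inr ?_⟩
      rw [Set.univ_inter]
      intro z hz hzU
      exact h ⟨z, hzU, hz⟩
  | union s hs t ht ihs iht =>
    intro Z hZ
    obtain ⟨V, hV, hVZ, h1 | h1⟩ := ihs Z hZ
    · exact ⟨V, hV, hVZ, Or.inl (h1.trans Set.subset_union_left)⟩
    · obtain ⟨W, hW, hWZ, h2⟩ := iht (V ∩ Z) hVZ
      refine ⟨W ∩ V, hW.inter hV, by rwa [Set.inter_assoc], ?_⟩
      rw [Set.inter_assoc]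
      rcases h2 with h2 | h2
      · exact Or.inl (h2.trans Set.subset_union_right)
      · right
        intro z hz hz'
        rcases hz' with hz' | hz'
        · exact h1 hz.2 hz'
        · exact h2 hz hz'
  | compl s hs ih =>
    intro Z hZ
    obtain ⟨V, hV, hVZ, h1⟩ := ih Z hZ
    refine ⟨V, hV, hVZ, ?_⟩
    rw [compl_compl]
    exact h1.symm

/-- Every point of a constructible set lies in a locally closed subset of it. -/
theorem exists_open_closure {T : Set X} (hT : Topology.IsConstructible T) {x : X} (hx : x ∈ T) :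
    ∃ V : Set X, IsOpen V ∧ x ∈ V ∧ V ∩ closure {x} ⊆ T := by
  obtain ⟨V, hV, ⟨y, hyV, hy⟩, h⟩ := decide hT (closure {x}) ⟨x, subset_closure rfl⟩
  have hxV : x ∈ V := by
    obtain ⟨z, hzV, hz⟩ := mem_closure_iff.1 hy V hV hyV
    rw [Set.mem_singleton_iff] at hz
    rwa [hz] at hzV
  refine ⟨V, hV, hxV, ?_⟩
  rcases h with h | h
  · exact h
  · exact absurd hx (h ⟨hxV, subset_closure rfl⟩)

/-- If finitely many constructible sets cover a nonempty set, one of them contains a nonempty open
part of it. -/
theorem exists_open_subset {ι : Type*} (s : Finset ι) (T : ι → Set X)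
    (hT : ∀ i ∈ s, Topology.IsConstructible (T i)) :
    ∀ Z : Set X, Z.Nonempty → Z ⊆ ⋃ i ∈ s, T i →
      ∃ V : Set X, IsOpen V ∧ (V ∩ Z).Nonempty ∧ ∃ i ∈ s, V ∩ Z ⊆ T i := by
  classical
  induction s using Finset.induction_on with
  | empty =>
    intro Z hZ hZT
    obtain ⟨z, hz⟩ := hZ
    simpa using hZT hz
  | insert j s hj ih =>
    intro Z hZ hZT
    obtain ⟨V, hV, hVZ, h1 | h1⟩ := decide (hT j (Finset.mem_insert_self j s)) Z hZ
    · exact ⟨V, hV, hVZ, j, Finset.mem_insert_self j s, h1⟩
    · obtain ⟨W, hW, hWZ, i, hi, hWT⟩ := ih (fun i hi => hT i (Finset.mem_insert_of_mem hi))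
        (V ∩ Z) hVZ (by
          intro z hz
          have h2 := hZT hz.2
          rw [Set.mem_iUnion₂] at h2 ⊢
          obtain ⟨i, hi, hzi⟩ := h2
          rcases Finset.mem_insert.1 hi with rfl | hi
          · exact absurd hzi (h1 hz)
          · exact ⟨i, hi, hzi⟩)
      exact ⟨W ∩ V, hW.inter hV, by rwa [Set.inter_assoc], i, Finset.mem_insert_of_mem hi, by
        rwa [Set.inter_assoc]⟩

end top

/-! ### Finite presentation -/

theorem lfp_of_lft {X Y : Scheme.{0}} (f : X ⟶ Y) [LocallyOfFiniteType f]
    [IsLocallyNoetherian Y] : LocallyOfFinitePresentation f := by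
  rw [HasRingHomProperty.iff_appLE (P := @LocallyOfFinitePresentation)]
  intro U V e
  have h := HasRingHomProperty.appLE (P := @LocallyOfFiniteType) f inferInstance U V e
  have : IsNoetherianRing Γ(Y, U) := IsLocallyNoetherian.component_noetherian U
  exact RingHom.FinitePresentation.of_finiteType.1 h

/-! ### Points -/

section pts

variable {R : Type} [CommRing R] [IsLocalRing R] [IsAlgClosed (IsLocalRing.ResidueField R)]
  {G : Over (Spec (CommRingCat.of R))} [LocallyOfFiniteType G.hom]

theorem bc_comp (r : Pts G (IsLocalRing.ResidueField R)) :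
    (bcEquiv (M := IsLocalRing.ResidueField R) G r).left ≫
      ((bc R (IsLocalRing.ResidueField R)).obj G).hom = 𝟙 _ := by
  have h := Over.w (bcEquiv (M := IsLocalRing.ResidueField R) G r)
  refine h.trans ?_
  exact Spec.map_id _

theorem fst_bc (r : Pts G (IsLocalRing.ResidueField R)) :
    (pullback.fst G.hom
      (Spec.map (CommRingCat.ofHom (algebraMap R (IsLocalRing.ResidueField R)))))
      ((bcEquiv (M := IsLocalRing.ResidueField R) G r).left
        (IsLocalRing.closedPoint (IsLocalRing.ResidueField R))) =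
      r.left (IsLocalRing.closedPoint (IsLocalRing.ResidueField R)) := by
  have h := bcEquiv_left_fst (M := IsLocalRing.ResidueField R) G r
  have h2 := congrArg (fun f : (SpecA R (IsLocalRing.ResidueField R)).left ⟶ G.left =>
    f (IsLocalRing.closedPoint (IsLocalRing.ResidueField R))) h
  exact h2

theorem lft_bc : LocallyOfFiniteType ((bc R (IsLocalRing.ResidueField R)).obj G).hom := by
  change LocallyOfFiniteType (pullback.snd _ _)
  infer_instance

/-- sections through the same point of the special fibre have the same reduction -/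
theorem redk_eq {s s' : Pts G R} (h : cpt s = cpt s') : redk s = redk s' := by
  have := lft_bc (G := G)
  apply (bcEquiv (M := IsLocalRing.ResidueField R) G).injective
  apply Over.OverMorphism.ext
  apply ext_of_apply_closedPoint_eq ((bc R (IsLocalRing.ResidueField R)).obj G).hom
    (bc_comp _) (bc_comp _)
  have hinj : Function.Injective (pullback.fst G.hom
      (Spec.map (CommRingCat.ofHom (algebraMap R (IsLocalRing.ResidueField R))))) :=
    (Pool.Agent.Helper9.Tm.isClosedImmersion_fst (G := G)).isClosedEmbedding.injective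
  apply hinj
  have h1 := fst_bc (redk s)
  have h2 := fst_bc (redk s')
  rw [Pool.Agent.Helper9.Tm.redk_left_closedPoint] at h1 h2
  exact h1.trans (h.trans h2.symm)

/-- the points of the special fibre given by sections are closed -/
theorem isClosed_cpt (s : Pts G R) : IsClosed ({cpt s} : Set G.left) := by
  have := lft_bc (G := G)
  have h1 := (pointEquivClosedPoint ((bc R (IsLocalRing.ResidueField R)).obj G).hom
    ⟨(bcEquiv (M := IsLocalRing.ResidueField R) G (redk s)).left, bc_comp _⟩).2
  have h2 : IsClosed ({(bcEquiv (M := IsLocalRing.ResidueField R) G (redk s)).left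
    (IsLocalRing.closedPoint (IsLocalRing.ResidueField R))} : Set _) := h1
  have h3 := (Pool.Agent.Helper9.Tm.isClosedImmersion_fst
    (G := G)).isClosedEmbedding.isClosedMap _ h2
  have h4 := fst_bc (redk s)
  rw [Pool.Agent.Helper9.Tm.redk_left_closedPoint] at h4
  rw [Set.image_singleton] at h3
  rw [← h4]
  exact h3

end pts

/-- sections of `Spec A` are homomorphisms `A → R` -/
theorem exists_specMap {R A A' : Type} [CommRing R] [CommRing A] [Algebra R A] [CommRing A']
    [Algebra R A'] (w : SpecA R A' ⟶ SpecA R A) : ∃ f : A →ₐ[R] A', specMap f = w := by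
  obtain ⟨φ, hφ⟩ := Spec.map_surjective (R := CommRingCat.of A) (S := CommRingCat.of A') w.left
  have h1 : Spec.map φ ≫ Spec.map (CommRingCat.ofHom (algebraMap R A)) =
      Spec.map (CommRingCat.ofHom (algebraMap R A')) := by
    rw [hφ]
    exact Over.w w
  rw [← Spec.map_comp] at h1
  have h2 := Spec.map_injective h1
  have h3 : ∀ r, φ.hom (algebraMap R A r) = algebraMap R A' r := by
    intro r
    exact congrArg (fun g : CommRingCat.of R ⟶ CommRingCat.of A' => g.hom r) h2
  refine ⟨{ φ.hom with commutes' := h3 }, ?_⟩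
  apply Over.OverMorphism.ext
  rw [specMap_left, ← hφ]
  rfl

theorem gCST (hNBH : NBH) : CST := by
  intro R _ _ _ _ _ G _ hG A _ _ _ ι _ v hv
  classical
  have hlft : LocallyOfFiniteType G.hom := inferInstance
  have hLN : IsLocallyNoetherian G.left := LocallyOfFiniteType.isLocallyNoetherian G.hom
  obtain ⟨V₀, hV₀1, -, hV₀2⟩ := hNBH R G hG ⊤ (cpt (1 : Pts G R)) trivial
    (Pool.Agent.Helper9.Tm.cpt_mem _)
  have h4 : ((⊤ : G.left.Opens) : Set G.left) ∩ specialFibre G = specialFibre G :=
    Set.univ_inter _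
  rw [h4] at hV₀2
  obtain ⟨_, ⟨U, hU, rfl⟩, hxU, hUV⟩ :=
    G.left.isBasis_affineOpens.exists_subset_of_mem_open hV₀1 V₀.2
  have hUc : IsCompact (U : Set G.left) := IsAffineOpen.isCompact hU
  -- the images
  have hsmA : Smooth (SpecA R A).hom := smooth_specA R A
  let T : ι → Set G.left := fun i => Set.range (v i).left ∩ (U : Set G.left)
  have hT : ∀ i, Topology.IsConstructible (T i) := by
    intro i
    have hw : (v i).left ≫ G.hom = (SpecA R A).hom := Over.w (v i)
    have h1 : LocallyOfFiniteType ((v i).left ≫ G.hom) := by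
      rw [hw]
      infer_instance
    have h2 : LocallyOfFiniteType (v i).left := locallyOfFiniteType_of_comp _ G.hom
    have h3 : LocallyOfFinitePresentation (v i).left := lfp_of_lft _
    have h5 : CompactSpace (SpecA R A).left := by
      change CompactSpace (PrimeSpectrum A)
      infer_instance
    have h6 : QuasiCompact (v i).left := quasiCompact_of_compactSpace _
    have h7 := Scheme.Hom.isLocallyConstructible_image (v i).left
      (s := Set.univ) Topology.IsLocallyConstructible.univ
    rw [Set.image_univ] at h7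
    exact h7.inter_of_isOpen_isCompact U.isOpen hUc
  have hTU : Topology.IsConstructible ((⋃ i, T i)ᶜ) :=
    (Topology.IsConstructible.iUnion hT).compl
  have hcover : (U : Set G.left) ∩ specialFibre G ⊆ ⋃ i, T i := by
    intro x hx
    by_contra hxT
    obtain ⟨W, hW, hxW, hWT⟩ := exists_open_closure hTU hxT
    obtain ⟨s, hs1, hs2⟩ := Pool.Agent.Helper82.Nm.kpt Pool.Agent.Helper8.Nm.liftk R G hG x
      (⟨W, hW⟩ ⊓ U) hx.2 ⟨hxW, hx.1⟩
    have hsT : cpt (G := G) s ∈ (⋃ i, T i)ᶜ := hWT ⟨hs1.1, hs2⟩
    have hsc : SameComp (1 : Pts G R) s := hV₀2 ⟨hUV hs1.2, Pool.Agent.Helper9.Tm.cpt_mem _⟩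
    obtain ⟨i, w, hw⟩ := hv s hsc
    apply hsT
    rw [Set.mem_iUnion]
    refine ⟨i, ?_, hs1.2⟩
    have h8 := Pool.Agent.Helper9.Tm.redk_left_closedPoint (G := G) s
    rw [hw, Pool.Agent.Helper9.Tm.redk_left_closedPoint] at h8
    rw [← h8]
    exact ⟨(specMap w).left (IsLocalRing.closedPoint R), rfl⟩
  have : Fintype ι := Fintype.ofFinite ι
  obtain ⟨V, hV, hVne, i, -, hVi⟩ := exists_open_subset (Finset.univ : Finset ι) T
    (fun i _ => hT i) ((U : Set G.left) ∩ specialFibre G)
    ⟨_, hxU, Pool.Agent.Helper9.Tm.cpt_mem (1 : Pts G R)⟩ (by simpa using hcover)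
  refine ⟨⟨V, hV⟩ ⊓ U, ?_, i, ?_⟩
  · obtain ⟨z, hz1, hz2, hz3⟩ := hVne
    exact ⟨z, ⟨hz1, hz2⟩, hz3⟩
  · intro s hs
    have hsT : cpt s ∈ T i := hVi ⟨hs.1, hs.2, Pool.Agent.Helper9.Tm.cpt_mem s⟩
    obtain ⟨⟨a, ha⟩, -⟩ := hsT
    have haS : a ∈ specialFibre (SpecA R A) := by
      have hw : (v i).left ≫ G.hom = (SpecA R A).hom := Over.w (v i)
      change (SpecA R A).hom a = IsLocalRing.closedPoint R
      rw [← hw]
      change G.hom ((v i).left a) = _
      rw [ha]
      exact Pool.Agent.Helper9.Tm.cpt_mem s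
    obtain ⟨w0, -, hw0⟩ := Pool.Agent.Helper82.Nm.kpt Pool.Agent.Helper8.Nm.liftk R (SpecA R A)
      hsmA a ⊤ haS trivial
    obtain ⟨w, hw⟩ := exists_specMap (R := R) (A := A) (A' := R) w0
    refine ⟨w, ?_⟩
    apply redk_eq
    have h9 : cpt ((v i).map w) ∈ closure ({cpt s} : Set G.left) := by
      have h10 := image_closure_subset_closure_image (s := {a}) (v i).left.continuous
        ⟨_, hw0, rfl⟩
      rw [Set.image_singleton, ha] at h10
      have h11 : cpt ((v i).map w) = (v i).left (Pool.Agent.Helper40.Nm.cpt w0) := by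
        rw [← hw]
        rfl
      rw [h11]
      exact h10
    rw [(isClosed_cpt s).closure_eq, Set.mem_singleton_iff] at h9
    exact h9.symm

end Pool.Agent.Helper87.Tm
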